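import Pool.Agent.Lib.MP_870dc7_co.RS

set_option autoImplicit false

namespace Pool.Agent.Lib.MP_870dc7_co

open Filter

theorem S_shift (m d N : ℕ) :
    ∑ n ∈ Finset.Icc 1 N, rs (n + d) * rs (n + (d + m)) = S m (N + d + 1) - S m (d + 1) := by
  induction N with
  | zero => simp [S]
  | succ N ih =>
    rw [Finset.sum_Icc_succ_top (by omega), ih]
    rw [show N + 1 + d + 1 = (N + d + 1) + 1 by ring, S_succ m (N + d + 1)]
    rw [show N + d + 1 + m = N + 1 + (d + m) by ring, show N + d + 1 = N + 1 + d by ring]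
    ring

theorem abs_S_sub (m N e : ℕ) : |S m (N + e) - S m N| ≤ e := by
  induction e with
  | zero => simp
  | succ e ih =>
    rw [show N + (e + 1) = (N + e) + 1 by ring, S_succ]
    have h2 : |rs (N + e) * rs (N + e + m)| = 1 := by rw [abs_mul, abs_rs, abs_rs]; norm_num
    have h3 : |S m (N + e) + rs (N + e) * rs (N + e + m) - S m N| ≤
        |S m (N + e) - S m N| + |rs (N + e) * rs (N + e + m)| := by
      rw [show S m (N + e) + rs (N + e) * rs (N + e + m) - S m N =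
        (S m (N + e) - S m N) + rs (N + e) * rs (N + e + m) by ring]
      exact abs_add_le _ _
    push_cast
    omega

theorem corr_lt (d d' : ℕ) (h : d < d') :
    ∃ C : ℤ, 0 ≤ C ∧ ∀ N, |∑ n ∈ Finset.Icc 1 N, rs (n + d) * rs (n + d')| ≤ C * L N := by
  obtain ⟨C, hC0, hC⟩ := corr_bound (d' - d) (by omega)
  refine ⟨C + 2 * (d + 1), by positivity, fun N => ?_⟩
  have h1 := S_shift (d' - d) d N
  rw [show d + (d' - d) = d' by omega] at h1
  rw [h1]
  have h2 := abs_S_sub (d' - d) N (d + 1)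
  have h3 := abs_S_sub (d' - d) 0 (d + 1)
  have h4 := (hC N).1
  have h5 : S (d' - d) 0 = 0 := by simp [S]
  rw [h5, zero_add, sub_zero] at h3
  have h6 : |S (d' - d) (N + d + 1) - S (d' - d) (d + 1)| ≤
      |S (d' - d) (N + (d + 1)) - S (d' - d) N| + |S (d' - d) N| + |S (d' - d) (d + 1)| := by
    rw [show S (d' - d) (N + d + 1) - S (d' - d) (d + 1) =
      (S (d' - d) (N + (d + 1)) - S (d' - d) N) + S (d' - d) N - S (d' - d) (d + 1) by
        rw [← add_assoc]; ring]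
    refine (abs_sub _ _).trans ?_
    have := abs_add_le (S (d' - d) (N + (d + 1)) - S (d' - d) N) (S (d' - d) N)
    omega
  have h7 := L_pos N
  push_cast at h2 h3
  nlinarith

theorem corr_ne (d d' : ℕ) (h : d ≠ d') :
    ∃ C : ℤ, 0 ≤ C ∧ ∀ N, |∑ n ∈ Finset.Icc 1 N, rs (n + d) * rs (n + d')| ≤ C * L N := by
  rcases Nat.lt_or_gt_of_ne h with h | h
  · exact corr_lt d d' h
  · obtain ⟨C, hC0, hC⟩ := corr_lt d' d h
    refine ⟨C, hC0, fun N => ?_⟩
    have := hC N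
    simpa [mul_comm] using this

theorem second_moment (D : Finset ℕ) :
    ∃ C : ℤ, 0 ≤ C ∧ ∀ N : ℕ, ∑ n ∈ Finset.Icc 1 N, (∑ d ∈ D, rs (n + d)) ^ 2 ≤
      (D.card : ℤ) * N + C * L N := by
  classical
  have hc : ∀ d d' : ℕ, ∃ C : ℤ, 0 ≤ C ∧ ∀ N : ℕ,
      ∑ n ∈ Finset.Icc 1 N, rs (n + d) * rs (n + d') ≤ (if d = d' then (N : ℤ) else 0) + C * L N := by
    intro d d'
    by_cases h : d = d'
    · subst h
      refine ⟨0, le_refl _, fun N => ?_⟩
      rw [if_pos rfl]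
      have : ∑ n ∈ Finset.Icc 1 N, rs (n + d) * rs (n + d) = N := by
        rw [Finset.sum_congr rfl (fun n _ => rs_sq (n + d))]
        simp
      rw [this]; simp
    · obtain ⟨C, hC0, hC⟩ := corr_ne d d' h
      refine ⟨C, hC0, fun N => ?_⟩
      rw [if_neg h, zero_add]
      exact (le_abs_self _).trans (hC N)
  choose C hC0 hC using hc
  refine ⟨∑ d ∈ D, ∑ d' ∈ D, C d d', Finset.sum_nonneg fun d _ => Finset.sum_nonneg fun d' _ =>
    hC0 d d', fun N => ?_⟩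
  have h1 : ∑ n ∈ Finset.Icc 1 N, (∑ d ∈ D, rs (n + d)) ^ 2 =
      ∑ d ∈ D, ∑ d' ∈ D, ∑ n ∈ Finset.Icc 1 N, rs (n + d) * rs (n + d') := by
    simp_rw [sq, Finset.sum_mul_sum]
    rw [Finset.sum_comm]
    refine Finset.sum_congr rfl fun d _ => ?_
    rw [Finset.sum_comm]
  rw [h1]
  calc ∑ d ∈ D, ∑ d' ∈ D, ∑ n ∈ Finset.Icc 1 N, rs (n + d) * rs (n + d')
      ≤ ∑ d ∈ D, ∑ d' ∈ D, ((if d = d' then (N : ℤ) else 0) + C d d' * L N) :=
        Finset.sum_le_sum fun d _ => Finset.sum_le_sum fun d' _ => hC d d' N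
    _ = (D.card : ℤ) * N + (∑ d ∈ D, ∑ d' ∈ D, C d d') * L N := by
        simp_rw [Finset.sum_add_distrib, Finset.sum_mul]
        congr 1
        rw [Finset.sum_congr rfl (fun d hd => by rw [Finset.sum_ite_eq, if_pos hd])]
        simp

theorem L_small (K : ℝ) (δ : ℝ) (hδ : 0 < δ) :
    ∀ᶠ N : ℕ in atTop, K * ((L N : ℤ) : ℝ) ≤ δ * N := by
  wlog hK : 0 < K generalizing K
  · filter_upwards [this 1 one_pos] with N hN
    have h1 : (1 : ℝ) ≤ ((L N : ℤ) : ℝ) := by exact_mod_cast L_pos N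
    nlinarith [not_lt.mp hK]
  have hlog2 : 0 < Real.log 2 := Real.log_pos (by norm_num)
  have h := (Real.isLittleO_log_id_atTop.bound (c := δ * Real.log 2 / (2 * K)) (by positivity))
  have h' := tendsto_natCast_atTop_atTop.eventually h
  have h2 : ∀ᶠ N : ℕ in atTop, 2 * K / δ ≤ (N : ℝ) :=
    tendsto_natCast_atTop_atTop.eventually (eventually_ge_atTop _)
  filter_upwards [h', h2, eventually_ge_atTop 1] with N hN hN2 hN1
  have hN0 : (0 : ℝ) < N := by exact_mod_cast hN1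
  have hlogN : 0 ≤ Real.log N := Real.log_nonneg (by exact_mod_cast hN1)
  simp only [id, Real.norm_eq_abs, abs_of_nonneg hlogN, abs_of_pos hN0] at hN
  have h3 : ((Nat.log 2 N : ℕ) : ℝ) ≤ Real.log N / Real.log 2 := by
    have := Real.natLog_le_logb N 2
    simpa [Real.logb] using this
  have h4 : Real.log N / Real.log 2 ≤ δ / (2 * K) * N := by
    rw [div_le_iff₀ hlog2]
    calc Real.log N ≤ δ * Real.log 2 / (2 * K) * N := hN
      _ = δ / (2 * K) * N * Real.log 2 := by ring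
  have h5 : K * ((Nat.log 2 N : ℕ) : ℝ) ≤ δ / 2 * N := by
    calc K * ((Nat.log 2 N : ℕ) : ℝ) ≤ K * (δ / (2 * K) * N) :=
          mul_le_mul_of_nonneg_left (h3.trans h4) hK.le
      _ = δ / 2 * N := by field_simp
  have h6 : K ≤ δ / 2 * N := by
    have := (div_le_iff₀ hδ).mp hN2
    linarith
  have h7 : ((L N : ℤ) : ℝ) = ((Nat.log 2 N : ℕ) : ℝ) + 1 := by
    unfold L; push_cast; ring
  rw [h7]
  linarith

/-- If `rs (b + c)` is the same sign for all `b ∈ B`, `c ∈ C` and `C` is infinite, then `B` has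
density zero. -/
theorem density_zero (B C : Set ℕ) (hC : C.Infinite) (σ : ℤ) (hσ : σ = 1 ∨ σ = -1)
    (h : ∀ b ∈ B, ∀ c ∈ C, rs (b + c) = σ) (ε : ℝ) (hε : 0 < ε) :
    ∀ᶠ N : ℕ in atTop, ((B ∩ Set.Icc 1 N).ncard : ℝ) ≤ ε * N := by
  classical
  obtain ⟨k, hk⟩ := exists_nat_gt (2 / ε)
  have hk0 : (0 : ℝ) < k := lt_trans (by positivity) hk
  obtain ⟨D, hDC, hDk⟩ := hC.exists_subset_card_eq k
  obtain ⟨K, hK0, hK⟩ := second_moment D
  have hsmall := L_small (K : ℝ) (ε / 2) (by positivity)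
  filter_upwards [hsmall] with N hN
  have hfin : (B ∩ Set.Icc 1 N).Finite := (Set.finite_Icc 1 N).subset Set.inter_subset_right
  have hsub : hfin.toFinset ⊆ Finset.Icc 1 N := by
    intro x hx
    rw [Set.Finite.mem_toFinset] at hx
    rw [Finset.mem_Icc]
    exact hx.2
  have h1 : ∑ n ∈ hfin.toFinset, (∑ d ∈ D, rs (n + d)) ^ 2 ≤
      ∑ n ∈ Finset.Icc 1 N, (∑ d ∈ D, rs (n + d)) ^ 2 :=
    Finset.sum_le_sum_of_subset_of_nonneg hsub (fun _ _ _ => sq_nonneg _)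
  have h2 : ∑ n ∈ hfin.toFinset, (∑ d ∈ D, rs (n + d)) ^ 2 = (hfin.toFinset.card : ℤ) * (k : ℤ) ^ 2 := by
    have : ∀ n ∈ hfin.toFinset, (∑ d ∈ D, rs (n + d)) ^ 2 = (k : ℤ) ^ 2 := by
      intro n hn
      rw [Set.Finite.mem_toFinset] at hn
      have h3 : ∑ d ∈ D, rs (n + d) = k * σ := by
        rw [Finset.sum_congr rfl (fun d hd => h n hn.1 d (hDC hd)), Finset.sum_const, hDk]
        simp
      rw [h3]
      rcases hσ with h | h <;> rw [h] <;> ring
    rw [Finset.sum_congr rfl this, Finset.sum_const]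
    simp
  have h3 := hK N
  rw [hDk] at h3
  have h4 : (hfin.toFinset.card : ℤ) * (k : ℤ) ^ 2 ≤ k * N + K * L N := by
    rw [← h2]; exact h1.trans h3
  have h5 : (hfin.toFinset.card : ℝ) * (k : ℝ) ^ 2 ≤ k * N + K * ((L N : ℤ) : ℝ) := by
    exact_mod_cast h4
  have h6 : (B ∩ Set.Icc 1 N).ncard = hfin.toFinset.card := Set.ncard_eq_toFinset_card _ hfin
  rw [h6]
  have hN0 : (0 : ℝ) ≤ N := Nat.cast_nonneg N
  have h7 : 2 < ε * k := by
    have := (div_lt_iff₀ hε).mp hk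
    linarith
  have h8 : (k : ℝ) * N + ε / 2 * N ≤ ε * N * (k : ℝ) ^ 2 := by
    have hk1 : (1 : ℝ) ≤ k := by
      have : 0 < k := by exact_mod_cast hk0
      exact_mod_cast this
    have e1 : (k : ℝ) ≤ ε / 2 * k ^ 2 := by nlinarith
    have e2 : ε / 2 ≤ ε / 2 * k ^ 2 := by nlinarith [sq_nonneg ((k : ℝ) - 1)]
    nlinarith
  have h9 : (hfin.toFinset.card : ℝ) * (k : ℝ) ^ 2 ≤ ε * N * (k : ℝ) ^ 2 := by linarith
  exact le_of_mul_le_mul_right h9 (by positivity)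

end Pool.Agent.Lib.MP_870dc7_co
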