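import Mathlib

/-! Autocorrelations of the Rudin-Shapiro sequence. -/

set_option autoImplicit false

namespace Pool.Agent.Lib.MP_870dc7_co

/-- The Rudin-Shapiro sequence. -/
def rs : ℕ → ℤ
  | 0 => 1
  | (n + 1) =>
    if (n + 1) % 2 = 0 then rs ((n + 1) / 2) else (-1) ^ ((n + 1) / 2) * rs ((n + 1) / 2)
decreasing_by all_goals omega

theorem rs_zero : rs 0 = 1 := by rw [rs]

theorem rs_even (n : ℕ) : rs (2 * n) = rs n := by
  rcases n with _ | n
  · rfl
  · rw [show 2 * (n + 1) = (2 * n + 1) + 1 by ring, rs]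
    rw [if_pos (by omega)]
    congr 1
    omega

theorem rs_odd (n : ℕ) : rs (2 * n + 1) = (-1) ^ n * rs n := by
  rw [rs, if_neg (by omega)]
  have : (2 * n + 1) / 2 = n := by omega
  rw [this]

theorem rs_sq (n : ℕ) : rs n * rs n = 1 := by
  induction n using Nat.strong_induction_on with
  | _ n ih =>
    rcases Nat.even_or_odd' n with ⟨k, hk | hk⟩
    · rcases Nat.eq_zero_or_pos k with h0 | h0
      · subst h0; simp at hk; subst hk; rw [rs_zero]; norm_num
      · rw [hk, rs_even]; exact ih k (by omega)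
    · rw [hk, rs_odd]
      have h1 : ((-1 : ℤ) ^ k) * ((-1) ^ k) = 1 := by
        rw [← mul_pow]; norm_num
      calc (-1 : ℤ) ^ k * rs k * ((-1) ^ k * rs k) = ((-1) ^ k * (-1) ^ k) * (rs k * rs k) := by ring
        _ = 1 := by rw [h1, ih k (by omega)]; norm_num

theorem rs_eq_or (n : ℕ) : rs n = 1 ∨ rs n = -1 := by
  have h := rs_sq n
  have : (rs n - 1) * (rs n + 1) = 0 := by ring_nf; rw [sq, h]; norm_num
  rcases mul_eq_zero.mp this with h | h
  · left; omega
  · right; omega

theorem abs_rs (n : ℕ) : |rs n| = 1 := by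
  rcases rs_eq_or n with h | h <;> rw [h] <;> norm_num

/-- correlation sums -/
def S (m N : ℕ) : ℤ := ∑ n ∈ Finset.range N, rs n * rs (n + m)
/-- twisted correlation sums -/
def T (m N : ℕ) : ℤ := ∑ n ∈ Finset.range N, (-1) ^ n * (rs n * rs (n + m))

theorem S_succ (m N : ℕ) : S m (N + 1) = S m N + rs N * rs (N + m) := by
  unfold S; rw [Finset.sum_range_succ]
theorem T_succ (m N : ℕ) : T m (N + 1) = T m N + (-1) ^ N * (rs N * rs (N + m)) := by
  unfold T; rw [Finset.sum_range_succ]

theorem neg_one_pow_two_mul (n : ℕ) : (-1 : ℤ) ^ (2 * n) = 1 := by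
  rw [pow_mul]; norm_num

theorem neg_one_pow_mul_self (n : ℕ) : (-1 : ℤ) ^ n * (-1) ^ n = 1 := by
  rw [← mul_pow]; norm_num

theorem S_even (m M : ℕ) : S (2 * m) (2 * M) = (1 + (-1) ^ m) * S m M := by
  induction M with
  | zero => simp [S]
  | succ M ih =>
    rw [show 2 * (M + 1) = 2 * M + 1 + 1 by ring, S_succ, S_succ, ih, S_succ]
    rw [show 2 * M + 1 + 2 * m = 2 * (M + m) + 1 by ring, show 2 * M + 2 * m = 2 * (M + m) by ring,
      rs_even, rs_even, rs_odd, rs_odd, pow_add]
    have h := neg_one_pow_mul_self M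
    linear_combination ((-1) ^ m * rs M * rs (M + m)) * h

theorem T_even (m M : ℕ) : T (2 * m) (2 * M) = (1 - (-1) ^ m) * S m M := by
  induction M with
  | zero => simp [S, T]
  | succ M ih =>
    rw [show 2 * (M + 1) = 2 * M + 1 + 1 by ring, T_succ, T_succ, ih, S_succ]
    rw [show 2 * M + 1 + 2 * m = 2 * (M + m) + 1 by ring, show 2 * M + 2 * m = 2 * (M + m) by ring,
      rs_even, rs_even, rs_odd, rs_odd, pow_add, pow_succ, neg_one_pow_two_mul]
    have h := neg_one_pow_mul_self M
    linear_combination (-((-1) ^ m * rs M * rs (M + m))) * h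

theorem S_odd (m M : ℕ) : S (2 * m + 1) (2 * M) = (-1) ^ m * T m M + T (m + 1) M := by
  induction M with
  | zero => simp [S, T]
  | succ M ih =>
    rw [show 2 * (M + 1) = 2 * M + 1 + 1 by ring, S_succ, S_succ, ih, T_succ, T_succ]
    rw [show 2 * M + 1 + (2 * m + 1) = 2 * (M + (m + 1)) by ring,
      show 2 * M + (2 * m + 1) = 2 * (M + m) + 1 by ring,
      rs_even, rs_even, rs_odd, rs_odd, pow_add]
    ring

theorem T_odd (m M : ℕ) : T (2 * m + 1) (2 * M) = (-1) ^ m * T m M - T (m + 1) M := by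
  induction M with
  | zero => simp [T]
  | succ M ih =>
    rw [show 2 * (M + 1) = 2 * M + 1 + 1 by ring, T_succ, T_succ, ih, T_succ, T_succ]
    rw [show 2 * M + 1 + (2 * m + 1) = 2 * (M + (m + 1)) by ring,
      show 2 * M + (2 * m + 1) = 2 * (M + m) + 1 by ring,
      rs_even, rs_even, rs_odd, rs_odd, pow_add, pow_succ, neg_one_pow_two_mul]
    ring

theorem abs_S_le (m N : ℕ) : |S m N| ≤ |S m (2 * (N / 2))| + 1 := by
  rcases Nat.even_or_odd' N with ⟨k, hk | hk⟩
  · have : 2 * (N / 2) = N := by omega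
    rw [this]; omega
  · have h1 : 2 * (N / 2) = 2 * k := by omega
    rw [h1, hk, S_succ]
    have h2 : |rs (2 * k) * rs (2 * k + m)| = 1 := by rw [abs_mul, abs_rs, abs_rs]; norm_num
    calc |S m (2 * k) + rs (2 * k) * rs (2 * k + m)| ≤ |S m (2 * k)| + |rs (2 * k) * rs (2 * k + m)| :=
          abs_add_le _ _
      _ = _ := by rw [h2]

theorem abs_T_le (m N : ℕ) : |T m N| ≤ |T m (2 * (N / 2))| + 1 := by
  rcases Nat.even_or_odd' N with ⟨k, hk | hk⟩
  · have : 2 * (N / 2) = N := by omega
    rw [this]; omega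
  · have h1 : 2 * (N / 2) = 2 * k := by omega
    rw [h1, hk, T_succ]
    have h2 : |(-1) ^ (2 * k) * (rs (2 * k) * rs (2 * k + m))| = 1 := by
      rw [abs_mul, abs_mul, abs_rs, abs_rs]; norm_num
    calc |T m (2 * k) + (-1) ^ (2 * k) * (rs (2 * k) * rs (2 * k + m))|
        ≤ |T m (2 * k)| + |(-1) ^ (2 * k) * (rs (2 * k) * rs (2 * k + m))| :=
          abs_add_le _ _
      _ = _ := by rw [h2]

theorem abs_T_zero (N : ℕ) : |T 0 N| ≤ 1 := by
  have : T 0 N = 0 ∨ T 0 N = 1 := by
    induction N with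
    | zero => left; simp [T]
    | succ N ih =>
      have key : T 0 N = if N % 2 = 0 then 0 else 1 := by
        clear ih
        induction N with
        | zero => simp [T]
        | succ N ih =>
          rw [T_succ, ih, add_zero, rs_sq]
          rcases Nat.even_or_odd' N with ⟨k, hk | hk⟩
          · rw [if_pos (by omega), if_neg (by omega), hk, neg_one_pow_two_mul]; norm_num
          · rw [if_neg (by omega), if_pos (by omega), hk, pow_succ, neg_one_pow_two_mul]; norm_num
      rw [T_succ, key, add_zero, rs_sq]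
      rcases Nat.even_or_odd' N with ⟨k, hk | hk⟩
      · rw [if_pos (by omega), hk, neg_one_pow_two_mul]; norm_num
      · rw [if_neg (by omega), hk, pow_succ, neg_one_pow_two_mul]; norm_num
  rcases this with h | h <;> rw [h] <;> norm_num

/-- logarithmic comparison function -/
def L (N : ℕ) : ℤ := (Nat.log 2 N : ℤ) + 1

theorem L_pos (N : ℕ) : 1 ≤ L N := by unfold L; omega

theorem L_half (N : ℕ) : L (N / 2) ≤ L N := by
  unfold L
  have := Nat.log_mono_right (b := 2) (Nat.div_le_self N 2)
  omega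

theorem T_one_bound (N : ℕ) : |T 1 N| ≤ 2 * L N := by
  induction N using Nat.strong_induction_on with
  | _ N ih =>
    rcases Nat.lt_or_ge N 2 with h | h
    · have h1 := abs_T_le 1 N
      have h2 : 2 * (N / 2) = 0 := by omega
      rw [h2] at h1
      have h3 : |T 1 0| = 0 := by simp [T]
      have := L_pos N
      omega
    · have h1 := abs_T_le 1 N
      have h2 : T 1 (2 * (N / 2)) = T 0 (N / 2) - T 1 (N / 2) := by
        have := T_odd 0 (N / 2)
        simpa using this
      rw [h2] at h1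
      have h3 : |T 0 (N / 2) - T 1 (N / 2)| ≤ |T 0 (N / 2)| + |T 1 (N / 2)| := abs_sub _ _
      have h4 := abs_T_zero (N / 2)
      have h5 := ih (N / 2) (by omega)
      have h6 : L N = L (N / 2) + 1 := by
        unfold L
        rw [Nat.log_of_one_lt_of_le (by norm_num) h]
        push_cast; ring
      omega

/-- All nontrivial correlation sums grow at most logarithmically. -/
theorem corr_bound (m : ℕ) (hm : 1 ≤ m) :
    ∃ C : ℤ, 0 ≤ C ∧ ∀ N, |S m N| ≤ C * L N ∧ |T m N| ≤ C * L N := by
  induction m using Nat.strong_induction_on with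
  | _ m ih =>
    rcases Nat.even_or_odd' m with ⟨k, hk | hk⟩
    · obtain ⟨C, hC0, hC⟩ := ih k (by omega) (by omega)
      refine ⟨2 * C + 1, by omega, fun N => ?_⟩
      have hL := L_half N
      have hL1 := L_pos N
      obtain ⟨h1, h2⟩ := hC (N / 2)
      have h3 : C * L (N / 2) ≤ C * L N := mul_le_mul_of_nonneg_left hL hC0
      have hb : ∀ s : ℤ, (s = 1 + (-1) ^ k ∨ s = 1 - (-1) ^ k) → |s| ≤ 2 := by
        intro s hs
        rcases neg_one_pow_eq_or ℤ k with h | h <;> rw [h] at hs <;>
          rcases hs with h' | h' <;> rw [h'] <;> norm_num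
      constructor
      · have a1 := abs_S_le m N
        rw [hk, S_even, abs_mul, ← hk] at a1
        have a2 := hb (1 + (-1) ^ k) (Or.inl rfl)
        have a3 : |(1 + (-1) ^ k : ℤ)| * |S k (N / 2)| ≤ 2 * (C * L N) :=
          mul_le_mul a2 (h1.trans h3) (abs_nonneg _) (by norm_num)
        nlinarith
      · have a1 := abs_T_le m N
        rw [hk, T_even, abs_mul, ← hk] at a1
        have a2 := hb (1 - (-1) ^ k) (Or.inr rfl)
        have a3 : |(1 - (-1) ^ k : ℤ)| * |S k (N / 2)| ≤ 2 * (C * L N) :=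
          mul_le_mul a2 (h1.trans h3) (abs_nonneg _) (by norm_num)
        nlinarith
    · -- odd case
      have hT : ∃ C : ℤ, 0 ≤ C ∧ ∀ N, |T k N| ≤ C * L N ∧ |T (k + 1) N| ≤ C * L N := by
        rcases Nat.eq_zero_or_pos k with h0 | h0
        · subst h0
          refine ⟨2, by norm_num, fun N => ⟨?_, ?_⟩⟩
          · have := abs_T_zero N
            have := L_pos N
            omega
          · simpa using T_one_bound N
        · obtain ⟨C, hC0, hC⟩ := ih k (by omega) (by omega)
          obtain ⟨C', hC0', hC'⟩ := ih (k + 1) (by omega) (by omega)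
          refine ⟨C + C', by omega, fun N => ⟨?_, ?_⟩⟩
          · have h1 := (hC N).2
            have h2 : 0 ≤ C' * L N := mul_nonneg hC0' (by have := L_pos N; omega)
            nlinarith
          · have h1 := (hC' N).2
            have h2 : 0 ≤ C * L N := mul_nonneg hC0 (by have := L_pos N; omega)
            nlinarith
      obtain ⟨C, hC0, hC⟩ := hT
      refine ⟨2 * C + 1, by omega, fun N => ?_⟩
      have hL := L_half N
      have hL1 := L_pos N
      obtain ⟨h1, h2⟩ := hC (N / 2)
      have h3 : C * L (N / 2) ≤ C * L N := mul_le_mul_of_nonneg_left hL hC0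
      have h4 : |(-1) ^ k * T k (N / 2)| = |T k (N / 2)| := by
        rw [abs_mul]; simp
      constructor
      · have a1 := abs_S_le m N
        rw [hk, S_odd, ← hk] at a1
        have a2 : |(-1) ^ k * T k (N / 2) + T (k + 1) (N / 2)| ≤
          |(-1) ^ k * T k (N / 2)| + |T (k + 1) (N / 2)| := abs_add_le _ _
        rw [h4] at a2
        nlinarith
      · have a1 := abs_T_le m N
        rw [hk, T_odd, ← hk] at a1
        have a2 : |(-1) ^ k * T k (N / 2) - T (k + 1) (N / 2)| ≤
          |(-1) ^ k * T k (N / 2)| + |T (k + 1) (N / 2)| := abs_sub _ _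
        rw [h4] at a2
        nlinarith

end Pool.Agent.Lib.MP_870dc7_co
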